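import Pool.Agent.Lib_helper94.LRF.Result

/-!
A power saving over the square root in the log-rank problem for all Boolean matrices: there is an
absolute constant `C` such that every finite Boolean matrix `F` of real rank `r` has a
deterministic two-party protocol of cost at most `C * r ^ (1/2 - 10⁻¹⁴)`.
-/

set_option autoImplicit false

namespace Pool.Agent.Results.MP_e5d384_lc.AllMatrices

open Pool.Agent.Lib_helper10.LogRank

/-- There is an absolute constant `C` such that for all finite sets `X`, `Y` and every function
`F : X × Y → {0,1}` whose communication matrix has rank `r` over the reals there is a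
deterministic two-party protocol which computes `F` with cost at most `C * r ^ (1/2 - 10⁻¹⁴)`. -/
theorem result : ∃ C : ℝ, ∀ (X Y : Type) [Fintype X] [Fintype Y] (F : X → Y → Bool),
    ∃ π : Protocol X Y, (∀ x y, π.eval x y = F x y) ∧
      (π.cost : ℝ) ≤ C * (realRank F : ℝ) ^ (1 / 2 - 1 / 10 ^ 14 : ℝ) :=
  Pool.Agent.LRC.logrank_saving

end Pool.Agent.Results.MP_e5d384_lc.AllMatrices
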