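import Mathlib
import Pool.Agent.Lib_helper10.LogRank.Defs
import Pool.Agent.Lib_helper58.AGN.H5

/-!
Arbitrary gadgets and abelian groups of symmetries: deterministic communication complexity
`r ^ o(1)`, without any dependence on the number of gadgets.

`ι` is the finite index set of the gadgets `g i : A i → B i → Bool`, each of which depends on both
of its inputs (`DepBoth`) and has a deterministic protocol of cost at most `κ`. A finite abelian
group `V` acts on the finite sets `X` and `Y`; the function `f b x y` of a Boolean vector `b`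
and of `x`, `y` is invariant: `f b (w • x) (w • y) = f b x y`. The function is
`f (g (x, y)) x' y' + u (x, x') + v (y, y')` mod 2 with arbitrary `u`, `v` (`^^` is the exclusive
or). For every `ε > 0` there is a constant `C`, depending on `ε` only, such that it has a
deterministic protocol of cost at most `⌈log₂ h⌉ + C * r ^ ε * (1 + κ)`, where `h` is the number of
orbits of `V` on `X` and `r` is the real rank of the communication matrix.

With one-element sets `X`, `Y` these are all the compositions `f (g₁ (x₁, y₁), …, gₙ (xₙ, yₙ))`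
(all gadgets AND: AND functions, all gadgets XOR: XOR functions, and all the mixtures); without
gadgets and with `X = Y = V` these are all functions of `x + y` on all finite abelian groups.
-/

set_option autoImplicit false

namespace Pool.Agent.Results.MP_e5d384_lc.GadgetsAndSymmetry

open Pool.Agent.Lib_helper10.LogRank Pool.Agent.AGG

theorem result (ε : ℝ) (hε : 0 < ε) : ∃ C : ℝ, ∀ (ι : Type) [Fintype ι] [DecidableEq ι]
    (A B : ι → Type) [∀ i, Fintype (A i)] [∀ i, Fintype (B i)] (V : Type) [CommGroup V]
    [Finite V] (X Y : Type) [Fintype X] [Fintype Y] [MulAction V X] [MulAction V Y]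
    (g : ∀ i, A i → B i → Bool) (f : (ι → Bool) → X → Y → Bool)
    (u : (∀ i, A i) × X → Bool) (v : (∀ i, B i) × Y → Bool) (κ : ℕ),
    (∀ i, DepBoth (g i)) →
    (∀ i, ∃ π : Protocol (A i) (B i), (∀ a b, π.eval a b = g i a b) ∧ π.cost ≤ κ) →
    (∀ (b : ι → Bool) (w : V) (x : X) (y : Y), f b (w • x) (w • y) = f b x y) →
    ∃ π : Protocol ((∀ i, A i) × X) ((∀ i, B i) × Y),
      (∀ x y, π.eval x y = (f (fun i => g i (x.1 i) (y.1 i)) x.2 y.2 ^^ u x ^^ v y)) ∧
      (π.cost : ℝ) ≤ Nat.clog 2 (Nat.card (MulAction.orbitRel.Quotient V X)) +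
        C * (realRank fun (x : (∀ i, A i) × X) (y : (∀ i, B i) × Y) =>
          (f (fun i => g i (x.1 i) (y.1 i)) x.2 y.2 ^^ u x ^^ v y) : ℝ) ^ ε * (1 + κ) :=
  Pool.Agent.AGN.act_final hε

end Pool.Agent.Results.MP_e5d384_lc.GadgetsAndSymmetry
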