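import Mathlib
import Pool.Agent.Lib_helper10.LogRank.Defs
import Pool.Agent.Lib_helper16.LRM.Main

set_option autoImplicit false

namespace Pool.Agent.Results.MP_e5d384_lc.Product

open Pool.Agent.Lib_helper10.LogRank

/-- The log-rank conjecture (with exponent 5) for all functions composed from gadgets other than
XOR and from a meet. `L` is an arbitrary finite meet-semilattice. Alice holds `x = (x_i)` and
`a ∈ L`, Bob holds `q`, `y = (y_i)` and `b ∈ L`, and they compute
`f_q (g_1(x_1, y_1), …, g_n(x_n, y_n), a ⊓ b)`, where the functions `f_q` are arbitrary and every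
gadget `g_i` has a deterministic protocol of cost at most `κ` and is not of the form
`u(a) + v(b)` modulo `2`. The bound depends on `κ` and on the logarithm of the real rank of the
communication matrix only, whatever the number of coordinates and the semilattice.
With `L` a point these are all compositions with gadgets other than XOR, with `n = 0` all meet
functions: all AND-functions, all functions of `gcd (x, y)`, of the intersection of two subspaces,
and so on. -/
theorem result (ι : Type) [Fintype ι] [DecidableEq ι] (A B : ι → Type)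
    [∀ i, Fintype (A i)] [∀ i, Fintype (B i)] (L : Type) [SemilatticeInf L] [Fintype L]
    (Q : Type) [Fintype Q] (g : ∀ i, A i → B i → Bool)
    (hg : ∀ i, ¬ ∃ (u : A i → Bool) (v : B i → Bool), ∀ a b, g i a b = xor (u a) (v b))
    (κ : ℕ) (hκ : ∀ i, ∃ ρ : Protocol (A i) (B i), ρ.cost ≤ κ ∧ ∀ a b, ρ.eval a b = g i a b)
    (f : Q → (ι → Bool) → L → Bool) :
    ∃ π : Protocol ((∀ i, A i) × L) (Q × ((∀ i, B i) × L)),
      (∀ x p, π.eval x p = f p.1 (fun i => g i (x.1 i) (p.2.1 i)) (x.2 ⊓ p.2.2)) ∧
      (π.cost : ℝ) ≤ 40 * ((1 + 6 * κ) *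
        (1 + Real.logb 2 (realRank fun (x : (∀ i, A i) × L) (p : Q × ((∀ i, B i) × L)) =>
          f p.1 (fun i => g i (x.1 i) (p.2.1 i)) (x.2 ⊓ p.2.2)))) ^ 5 :=
  Pool.Agent.Lib_helper16.LRM.logRank_product ι A B L Q g hg κ hκ f

end Pool.Agent.Results.MP_e5d384_lc.Product
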