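import Mathlib
import Pool.Agent.Lib_helper10.LogRank.Defs
import Pool.Agent.Lib_helper85.XD.Final

/-!
The log-rank conjecture for all XOR functions of degree `O(log log rank)` over `F_2`, with the sign
rank in the place of the rank.

`F (x, y) = f (x + y) + u (x) + v (y)` for `x`, `y` in `F_2 ^ n`, where `f` is a polynomial of total
degree at most `d` over `F_2` and `u`, `v` are arbitrary. `G` is any real matrix whose entries have
the sign pattern of `F`. Then `F` has a deterministic protocol of cost at most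
`4 ^ (d + 1) (1 + log r) (d + 1 + log (1 + log r))`, `r` the rank of `G`.
-/

set_option autoImplicit false

namespace Pool.Agent.Results.MP_e5d384_lc.XorDegree

open Pool.Agent.Lib_helper10.LogRank

theorem result (n d : ℕ) (f : MvPolynomial (Fin n) (ZMod 2)) (hf : f.totalDegree ≤ d)
    (u v : (Fin n → ZMod 2) → ZMod 2)
    (F : (Fin n → ZMod 2) → (Fin n → ZMod 2) → Bool)
    (hF : ∀ x y, F x y = true ↔ MvPolynomial.eval (x + y) f + u x + v y = 1)
    (G : Matrix (Fin n → ZMod 2) (Fin n → ZMod 2) ℝ)
    (hG : ∀ x y, (F x y = true → 0 < G x y) ∧ (F x y = false → G x y < 0)) :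
    ∃ π : Protocol (Fin n → ZMod 2) (Fin n → ZMod 2), (∀ x y, π.eval x y = F x y) ∧
      π.cost ≤ 4 ^ (d + 1) * ((Nat.log 2 G.rank + 1) *
        (d + 1 + Nat.log 2 (Nat.log 2 G.rank + 1))) :=
  Pool.Agent.Lib_helper85.XD.final_xor n d f hf u v F hF G hG

end Pool.Agent.Results.MP_e5d384_lc.XorDegree
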